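import Pool.Agent.Work.MP_54723a_co.PL.Final

/-!
# Monotone flashes and rainbows: a bound with a polylogarithmic factor
-/

set_option autoImplicit false

namespace Pool.Agent.Work.MP_54723a_co_old.PolylogBound

/-- There is an absolute constant `C` such that for all `l ≥ 2`, all `k ≥ 1` and all
`n > C (1 + ⌊log₂ k⌋) ^ 10 l ^ (k - 1)` every edge colouring of the complete graph on `n` ordered
vertices has an `l`-flash or a `k`-rainbow. -/
theorem result : ∃ C : ℕ, ∀ l k n : ℕ, 2 ≤ l → 1 ≤ k →
    C * (Nat.log 2 k + 1) ^ 10 * l ^ (k - 1) < n →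
      ∀ c : Fin n → Fin n → ℕ,
        (∃ x : Fin (l + 1) → Fin n, StrictMono x ∧
          ∃ col : ℕ, ∀ i : Fin l, c (x i.castSucc) (x i.succ) = col) ∨
        (∃ y : Fin (k + 1) → Fin n, StrictMono y ∧
          Function.Injective (fun i : Fin k => c (y i.castSucc) (y i.succ))) :=
  FlashRainbow.PL.polylog_final

end Pool.Agent.Work.MP_54723a_co_old.PolylogBound
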